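import Mathlib

/-! Averaging over pairs of vectors: rotation invariance, isotropy and polar coordinates. -/

namespace Pool.Agent.MP_3ee8cb_gt.DNW

open Set MeasureTheory Metric Real Function
open scoped RealInnerProductSpace

noncomputable section

variable {E : Type} [NormedAddCommGroup E] [InnerProductSpace ℝ E]

/-- Rotation of a pair of vectors. -/
def rot (t : ℝ) (p : E × E) : E × E := (cos t • p.1 + sin t • p.2, -sin t • p.1 + cos t • p.2)

/-- The same as a linear map. -/
def rotL (t : ℝ) : E × E →ₗ[ℝ] E × E :=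
  (cos t • .fst ℝ E E + sin t • .snd ℝ E E : E × E →ₗ[ℝ] E).prod
    (-sin t • .fst ℝ E E + cos t • .snd ℝ E E)

/-- The unit ball of pairs. -/
def PB (E : Type) [NormedAddCommGroup E] : Set (E × E) := {p | ‖p.2‖ ^ 2 < 1 - ‖p.1‖ ^ 2}

/-- Linearly dependent pairs. -/
def Dep (E : Type) [NormedAddCommGroup E] [InnerProductSpace ℝ E] : Set (E × E) :=
  {p | ‖p.1‖ ^ 2 • p.2 = ⟪p.1, p.2⟫ • p.1}

theorem rot_cont : Continuous fun q : ℝ × E × E => rot q.1 q.2 := by
  unfold rot
  fun_prop

theorem rot_zero (p : E × E) : rot 0 p = p := by simp [rot]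

theorem rot_pi (t : ℝ) (p : E × E) : rot (t + π) p = -rot t p := by
  refine Prod.ext ?_ ?_ <;> simp [rot, cos_add_pi, sin_add_pi, add_comm]

theorem rot_d1 (p : E × E) (t : ℝ) : HasDerivAt (fun s => (rot s p).1) (rot t p).2 t :=
  ((hasDerivAt_cos t).smul_const p.1).add ((hasDerivAt_sin t).smul_const p.2)

theorem rot_d2 (p : E × E) (t : ℝ) : HasDerivAt (fun s => (rot s p).2) (-(rot t p).1) t := by
  refine (((hasDerivAt_sin t).neg.smul_const p.1).add
    ((hasDerivAt_cos t).smul_const p.2)).congr_deriv ?_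
  simp only [rot, neg_smul, neg_add]

theorem rot_norm (t : ℝ) (p : E × E) :
    ‖(rot t p).1‖ ^ 2 + ‖(rot t p).2‖ ^ 2 = ‖p.1‖ ^ 2 + ‖p.2‖ ^ 2 := by
  simp only [rot, norm_add_sq_real, norm_smul, mul_pow, Real.norm_eq_abs, sq_abs, inner_smul_left,
    inner_smul_right, conj_trivial]
  linear_combination (‖p.1‖ ^ 2 + ‖p.2‖ ^ 2) * sin_sq_add_cos_sq t

theorem rot_mem (t : ℝ) (p : E × E) : rot t p ∈ PB E ↔ p ∈ PB E := by
  have := rot_norm t p
  constructor <;> intro h <;> simp only [PB, mem_ofPred_eq] at h ⊢ <;> linarith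

theorem rot_ne {p : E × E} (hp : p ∉ Dep E) (t : ℝ) : (rot t p).1 ≠ 0 := fun h => hp <| by
  have h : cos t • p.1 + sin t • p.2 = 0 := h
  by_cases hs : sin t = 0
  · have hc : cos t ≠ 0 := fun hc => by simpa [hs, hc] using sin_sq_add_cos_sq t
    rw [hs, zero_smul, add_zero, smul_eq_zero] at h
    simp [Dep, h.resolve_left hc]
  · have e : p.2 = (-cos t / sin t) • p.1 := by
      rw [div_eq_inv_mul, mul_smul, neg_smul, neg_eq_of_add_eq_zero_right h, inv_smul_smul₀ hs]
    change ‖p.1‖ ^ 2 • p.2 = ⟪p.1, p.2⟫ • p.1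
    rw [e, inner_smul_right, real_inner_self_eq_norm_sq, smul_smul, mul_comm]

omit [InnerProductSpace ℝ E] in
theorem PB_open : IsOpen (PB E) := isOpen_lt (by fun_prop) (by fun_prop)

omit [InnerProductSpace ℝ E] in
theorem PB_sub : PB E ⊆ ball 0 1 ×ˢ ball 0 1 := fun p hp => by
  have hp : ‖p.2‖ ^ 2 < 1 - ‖p.1‖ ^ 2 := hp
  simp only [mem_prod, mem_ball_zero_iff]
  constructor <;> nlinarith [norm_nonneg p.1, norm_nonneg p.2]

variable [FiniteDimensional ℝ E]

theorem rot_det (t : ℝ) : |LinearMap.det (rotL (E := E) t)| = 1 := by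
  let F : E × E →ₗ[ℝ] E × E := LinearMap.id.prodMap (-LinearMap.id)
  have e1 : F ∘ₗ F = LinearMap.id := by ext <;> simp [F]
  have e2 : rotL t ∘ₗ F ∘ₗ rotL t ∘ₗ F = LinearMap.id := by
    refine LinearMap.ext fun p => Prod.ext ?_ ?_
    · change cos t • (cos t • p.1 + sin t • -p.2) + sin t • -(-sin t • p.1 + cos t • -p.2) = p.1
      linear_combination (norm := module) (sin_sq_add_cos_sq t) • p.1
    · change -sin t • (cos t • p.1 + sin t • -p.2) + cos t • -(-sin t • p.1 + cos t • -p.2) = p.2
      linear_combination (norm := module) (sin_sq_add_cos_sq t) • p.2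
  have d1 := congrArg LinearMap.det e1
  have d2 := congrArg LinearMap.det e2
  simp only [LinearMap.det_comp, LinearMap.det_id] at d1 d2
  have : LinearMap.det (rotL (E := E) t) ^ 2 = 1 := by
    linear_combination d2 - LinearMap.det (rotL (E := E) t) ^ 2 * d1
  rcases mul_self_eq_one_iff.1 ((sq _).symm.trans this) with h | h <;> simp [h]

variable [MeasurableSpace E] [BorelSpace E]

theorem rot_mp (t : ℝ) : MeasurePreserving (rot (E := E) t) (volume.prod volume)
    (volume.prod volume) := by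
  have h0 : LinearMap.det (rotL (E := E) t) ≠ 0 := fun h => by simpa [h] using rot_det (E := E) t
  have := Measure.map_linearMap_addHaar_eq_smul_addHaar
    ((volume : Measure E).prod (volume : Measure E)) h0
  rw [abs_inv, rot_det, inv_one, ENNReal.ofReal_one, one_smul] at this
  exact ⟨(rot_cont.comp (continuous_const.prodMk continuous_id)).measurable, this⟩

theorem rot_mpB (t : ℝ) : MeasurePreserving (rot (E := E) t)
    ((volume.prod volume).restrict (PB E)) ((volume.prod volume).restrict (PB E)) := by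
  have := (rot_mp (E := E) t).restrict_preimage PB_open.measurableSet
  rwa [show rot t ⁻¹' PB E = PB E from Set.ext (rot_mem t)] at this

instance : IsFiniteMeasure (((volume : Measure E).prod volume).restrict (PB E)) :=
  isFiniteMeasure_restrict.2 ((isBounded_ball.prod isBounded_ball).subset PB_sub).measure_lt_top.ne

theorem dep_null (h : 2 ≤ Module.finrank ℝ E) :
    ∀ᵐ p ∂(volume : Measure E).prod volume, p ∉ Dep E := by
  have : Nontrivial E := Module.nontrivial_of_finrank_pos (R := ℝ) (by omega)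
  have hc : IsClosed (Dep E) := isClosed_eq (by fun_prop) (by fun_prop)
  refine (Measure.ae_prod_iff_ae_ae hc.isOpen_compl.measurableSet).2 ?_
  filter_upwards [compl_mem_ae_iff.2 (measure_singleton (0 : E))] with u hu
  have hu : u ≠ 0 := hu
  have hs : (ℝ ∙ u) ≠ ⊤ := fun e => by
    have := finrank_span_singleton (K := ℝ) hu
    rw [e, finrank_top] at this
    omega
  filter_upwards [compl_mem_ae_iff.2 (Measure.addHaar_submodule volume _ hs)] with v hv hd
  have hd : ‖u‖ ^ 2 • v = ⟪u, v⟫ • u := hd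
  refine hv (Submodule.mem_span_singleton.2 ⟨(‖u‖ ^ 2)⁻¹ * ⟪u, v⟫, ?_⟩)
  rw [mul_smul, ← hd, inv_smul_smul₀ (pow_ne_zero 2 (norm_ne_zero_iff.2 hu))]

/-- A function with nonpositive integral along every ellipse has nonpositive mean. -/
theorem rot_avg (h : 2 ≤ Module.finrank ℝ E) (Φ : E × E → ℝ) (hm : Measurable Φ) (C T : ℝ)
    (hT : 0 < T) (hb : ∀ p ∈ PB E, |Φ p| ≤ C)
    (hi : ∀ p, p ∉ Dep E → ∫ t in (0 : ℝ)..T, Φ (rot t p) ≤ 0) :
    ∫ p in PB E, Φ p ∂volume.prod volume ≤ 0 := by
  have : IsFiniteMeasure (volume.restrict (Ioc (0 : ℝ) T)) :=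
    isFiniteMeasure_restrict.2 measure_Ioc_lt_top.ne
  have j : Integrable (uncurry fun p t => Φ (rot t p))
      (((volume.prod volume).restrict (PB E)).prod (volume.restrict (Ioc (0 : ℝ) T))) := by
    refine .of_bound (hm.comp (rot_cont.measurable.comp measurable_swap)).aestronglyMeasurable C ?_
    filter_upwards [Measure.quasiMeasurePreserving_fst.ae
      (ae_restrict_mem (PB_open (E := E)).measurableSet)] with q hq
    exact hb _ ((rot_mem q.2 q.1).2 hq)
  have k := integral_integral_swap j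
  have e : ∀ t, ∫ p in PB E, Φ (rot t p) ∂volume.prod volume =
      ∫ p in PB E, Φ p ∂volume.prod volume := fun t => by
    rw [← integral_map (rot_mpB t).measurable.aemeasurable hm.aestronglyMeasurable,
      (rot_mpB t).map_eq]
  simp only [e, integral_const, MeasurableSet.univ, measureReal_restrict_apply, univ_inter,
    Real.volume_real_Ioc_of_le hT.le, sub_zero, smul_eq_mul] at k
  refine nonpos_of_mul_nonpos_left (b := T) ?_ hT
  rw [mul_comm, ← k]
  refine integral_nonpos_of_ae (ae_restrict_of_ae ((dep_null h).mono fun p hp => ?_))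
  have := hi p hp
  rwa [intervalIntegral.integral_of_le hT.le] at this

/-- The same for integrable functions on the whole space of pairs. -/
theorem rot_avg' (h : 2 ≤ Module.finrank ℝ E) (Φ : E × E → ℝ) (hm : Measurable Φ)
    (hb : Integrable Φ (volume.prod volume)) (T : ℝ) (hT : 0 < T)
    (hi : ∀ p, p ∉ Dep E → ∫ t in (0 : ℝ)..T, Φ (rot t p) ≤ 0) :
    ∫ p, Φ p ∂volume.prod volume ≤ 0 := by
  have : IsFiniteMeasure (volume.restrict (Ioc (0 : ℝ) T)) :=
    isFiniteMeasure_restrict.2 measure_Ioc_lt_top.ne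
  have e : ∀ (Φ : E × E → ℝ), Measurable Φ → ∀ t, ∫ p, Φ (rot t p) ∂volume.prod volume =
      ∫ p, Φ p ∂volume.prod volume := fun Φ hm t => by
    rw [← integral_map (rot_mp t).measurable.aemeasurable hm.aestronglyMeasurable,
      (rot_mp t).map_eq]
  have j : Integrable (uncurry fun p t => Φ (rot t p))
      ((volume.prod volume).prod (volume.restrict (Ioc (0 : ℝ) T))) := by
    refine (integrable_prod_iff' (hm.comp (rot_cont.measurable.comp
      measurable_swap)).aestronglyMeasurable).2 ⟨.of_forall fun t =>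
        ((rot_mp t).integrable_comp hm.aestronglyMeasurable).2 hb, ?_⟩
    simp only [comp_apply, Prod.fst_swap, Prod.snd_swap, e _ hm.norm]
    exact integrable_const _
  have k := integral_integral_swap j
  simp only [e _ hm, integral_const, MeasurableSet.univ, measureReal_restrict_apply, univ_inter,
    Real.volume_real_Ioc_of_le hT.le, sub_zero, smul_eq_mul] at k
  refine nonpos_of_mul_nonpos_left (b := T) ?_ hT
  rw [mul_comm, ← k]
  refine integral_nonpos_of_ae ((dep_null h).mono fun p hp => ?_)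
  have := hi p hp
  rwa [intervalIntegral.integral_of_le hT.le] at this

/-- The second moment of a ball in the direction `a`. -/
def mom (s : ℝ) (a : E) : ℝ := ∫ v in {v : E | ‖v‖ ^ 2 < s}, ⟪a, v⟫ ^ 2

theorem mom_eq (s : ℝ) {a b : E} (h : ‖a‖ = ‖b‖) : mom s a = mom s b := by
  let R := (ℝ ∙ (a - b))ᗮ.reflection
  have hR : R a = b := Submodule.reflection_sub h
  have := R.measurePreserving.setIntegral_preimage_emb R.toHomeomorph.measurableEmbedding
    (fun v => ⟪b, v⟫ ^ 2) {v : E | ‖v‖ ^ 2 < s}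
  simp only [preimage_ofPred_eq, LinearIsometryEquiv.norm_map, ← hR,
    LinearIsometryEquiv.inner_map_map] at this
  rw [mom, this, hR, mom]

theorem int_on (s : ℝ) {f : E → ℝ} (hf : Continuous f) : IntegrableOn f {v : E | ‖v‖ ^ 2 < s} :=
  (hf.continuousOn.integrableOn_compact (isCompact_closedBall 0 (|s| + 1))).mono_set fun v hv => by
    have hv : ‖v‖ ^ 2 < s := hv
    rw [mem_closedBall_zero_iff]
    nlinarith [le_abs_self s, abs_nonneg s, sq_nonneg (‖v‖ - 1)]

theorem iso (s : ℝ) {e : E} (he : ‖e‖ = 1) (L : E →L[ℝ] E) :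
    ∫ v in {v : E | ‖v‖ ^ 2 < s}, ⟪L v, v⟫ = mom s e * LinearMap.trace ℝ E L := by
  classical
  let b := stdOrthonormalBasis ℝ E
  have e1 : ∀ v, ⟪L v, v⟫ = ∑ i, ∑ j, ⟪b i, L (b j)⟫ * (⟪b i, v⟫ * ⟪b j, v⟫) := fun v => by
    have h : L v = ∑ j, ⟪b j, v⟫ • L (b j) := by
      conv_lhs => rw [← b.sum_repr' v]
      simp only [map_sum, map_smul]
    rw [← b.sum_inner_mul_inner]
    refine Finset.sum_congr rfl fun i _ => ?_
    rw [h, sum_inner, Finset.sum_mul]
    refine Finset.sum_congr rfl fun j _ => ?_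
    rw [real_inner_smul_left, real_inner_comm (b i) (L (b j))]
    ring
  have e2 : ∀ i j, ∫ v in {v : E | ‖v‖ ^ 2 < s}, ⟪b i, v⟫ * ⟪b j, v⟫ =
      if i = j then mom s e else 0 := fun i j => by
    split_ifs with h
    · rw [mom_eq s (he.trans (b.orthonormal.1 i).symm), mom, h]
      simp only [sq]
    · have n : ‖b i + b j‖ = ‖b i - b j‖ := by
        rw [← sq_eq_sq₀ (norm_nonneg _) (norm_nonneg _), norm_add_sq_real, norm_sub_sq_real,
          b.orthonormal.2 h]
        ring
      have k := sub_eq_zero.2 (mom_eq s n)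
      rw [mom, mom, ← integral_sub (int_on s (by fun_prop)) (int_on s (by fun_prop))] at k
      have e : ∀ v : E, ⟪b i + b j, v⟫ ^ 2 - ⟪b i - b j, v⟫ ^ 2 = 4 * (⟪b i, v⟫ * ⟪b j, v⟫) :=
        fun v => by rw [inner_add_left, inner_sub_left]; ring
      simp only [e, integral_const_mul] at k
      linarith
  simp only [e1]
  rw [integral_finsetSum _ fun i _ => int_on s (by fun_prop), LinearMap.trace_eq_sum_inner _ b,
    Finset.mul_sum]
  refine Finset.sum_congr rfl fun i _ => ?_
  rw [integral_finsetSum _ fun j _ => int_on s (by fun_prop)]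
  simp only [integral_const_mul, e2, mul_ite, mul_zero, Finset.sum_ite_eq, Finset.mem_univ, if_true]
  exact mul_comm _ _

/-- Polar coordinates. -/
theorem polar [Nontrivial E] (f : ℝ → ℝ) (w : E → ℝ) :
    ∫ v : E, f ‖v‖ * w (‖v‖⁻¹ • v) = (∫ r, f r.1 ∂Measure.volumeIoiPow (Module.finrank ℝ E - 1)) *
      ∫ s : sphere (0 : E) 1, w s ∂(volume : Measure E).toSphere := by
  have h1 := (volume : Measure E).measurePreserving_homeomorphUnitSphereProd.integral_comp
    (Homeomorph.measurableEmbedding _) fun z => w z.1 * f z.2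
  rw [integral_prod_mul (fun s : sphere (0 : E) 1 => w s) (fun r : Ioi (0 : ℝ) => f r),
    mul_comm] at h1
  rw [← h1]
  refine ((congrArg (integral · _) (restrict_compl_singleton 0)).symm.trans
    (integral_subtype_comap (measurableSet_singleton _).compl _).symm).trans ?_
  refine integral_congr_ae (.of_forall fun x => ?_)
  simp only [homeomorphUnitSphereProd_apply_fst_coe, homeomorphUnitSphereProd_apply_snd_coe,
    mul_comm]

end

end Pool.Agent.MP_3ee8cb_gt.DNW
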