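import Mathlib

/-! A nonlinear Wirtinger inequality for antiperiodic functions. -/

namespace Pool.Agent.MP_3ee8cb_gt.DNW

open Set MeasureTheory Metric Real Function Filter Topology

noncomputable section

/-- The primitive of `exp (m ^ 2 / 2)`. -/
def hh (q : ℝ) : ℝ := ∫ m in (0 : ℝ)..q, exp (m ^ 2 / 2)

/-- The concave Lagrangian. -/
def LL (q : ℝ) : ℝ := exp (q ^ 2 / 2) - q * hh q

theorem hh_d (q : ℝ) : HasDerivAt hh (exp (q ^ 2 / 2)) q :=
  (Continuous.integral_hasStrictDerivAt (f := fun m : ℝ => exp (m ^ 2 / 2)) (by fun_prop) 0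
    q).hasDerivAt

@[fun_prop]
theorem hh_c : Continuous hh := continuous_iff_continuousAt.2 fun q => (hh_d q).continuousAt

@[fun_prop]
theorem LL_c : Continuous LL := by
  unfold LL
  fun_prop

theorem hh_zero : hh 0 = 0 := intervalIntegral.integral_same

theorem hh_mono : Monotone hh :=
  monotone_of_hasDerivAt_nonneg hh_d fun _ => (exp_pos _).le

theorem ex_d (q : ℝ) : HasDerivAt (fun q : ℝ => exp (q ^ 2 / 2)) (exp (q ^ 2 / 2) * q) q :=
  (((hasDerivAt_pow 2 q).div_const 2).exp).congr_deriv (by simp)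

theorem LL_d (q : ℝ) : HasDerivAt LL (-hh q) q :=
  ((ex_d q).sub ((hasDerivAt_id q).mul (hh_d q))).congr_deriv (by simp only [id]; ring)

theorem LL_le (q x : ℝ) : LL x ≤ exp (q ^ 2 / 2) - hh q * x := by
  have e : exp (q ^ 2 / 2) = LL q + q * hh q := by simp [LL]
  rw [e]
  rcases lt_trichotomy q x with h | h | h
  · obtain ⟨c, hc, e⟩ := exists_hasDerivAt_eq_slope LL (fun y => -hh y) h LL_c.continuousOn
      fun y _ => LL_d y
    rw [eq_div_iff (sub_pos.2 h).ne'] at e
    nlinarith [hh_mono hc.1.le]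
  · rw [h, mul_comm]
    linarith
  · obtain ⟨c, hc, e⟩ := exists_hasDerivAt_eq_slope LL (fun y => -hh y) h LL_c.continuousOn
      fun y _ => LL_d y
    rw [eq_div_iff (sub_pos.2 h).ne'] at e
    nlinarith [hh_mono hc.2.le]

theorem hh_abs (q : ℝ) : |hh q| ≤ exp (q ^ 2 / 2) * |q| := by
  have := intervalIntegral.norm_integral_le_of_norm_le_const (a := 0) (b := q)
    (f := fun m : ℝ => exp (m ^ 2 / 2)) (C := exp (q ^ 2 / 2)) fun x hx => by
      rw [Real.norm_eq_abs, abs_exp, exp_le_exp]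
      have := abs_sub_left_of_mem_uIcc (uIoc_subset_uIcc hx)
      rw [sub_zero, sub_zero, ← sq_le_sq] at this
      linarith
  rwa [sub_zero] at this

theorem par {F F' : ℝ → ℝ → ℝ} {U : Set ℝ} (hU : IsOpen U) {t : ℝ} (ht : t ∈ U)
    (hc : ∀ s, Continuous (F s)) (hc' : ContinuousOn (uncurry F') (U ×ˢ univ))
    (hd : ∀ s ∈ U, ∀ w, HasDerivAt (fun s => F s w) (F' s w) s) :
    HasDerivAt (fun s => ∫ w in (0 : ℝ)..1, F s w) (∫ w in (0 : ℝ)..1, F' t w) t := by
  obtain ⟨K, hK, hKU, cK⟩ := local_compact_nhds (hU.mem_nhds ht)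
  obtain ⟨C, hC⟩ := (cK.prod (isCompact_uIcc (a := (0 : ℝ)) (b := 1))).exists_bound_of_continuousOn
    (hc'.mono (prod_mono hKU (subset_univ _)))
  have c1 : Continuous (F' t) :=
    hc'.comp_continuous (continuous_const.prodMk continuous_id) fun _ => ⟨ht, trivial⟩
  exact (intervalIntegral.hasDerivAt_integral_of_dominated_loc_of_deriv_le (bound := fun _ => C)
    hK (.of_forall fun s => (hc s).aestronglyMeasurable) ((hc t).intervalIntegrable _ _)
    c1.aestronglyMeasurable
    (.of_forall fun w hw s hs => hC (s, w) ⟨hs, uIoc_subset_uIcc hw⟩) intervalIntegrable_const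
    (.of_forall fun w _ s hs => hd s (hKU hs) w)).2

/-- The calibration. -/
def TT (y q : ℝ) : ℝ := ∫ w in (0 : ℝ)..1, y * exp ((y * w) ^ 2 / 2) * hh (q * w)

theorem TT_c : Continuous fun p : ℝ × ℝ => TT p.1 p.2 := by
  unfold TT
  fun_prop

theorem TT_zero (q : ℝ) : TT 0 q = 0 := by simp [TT]

theorem TT_d {y y' q q' : ℝ → ℝ} {U : Set ℝ} (hU : IsOpen U) {t : ℝ} (ht : t ∈ U)
    (dy : ∀ s ∈ U, HasDerivAt y (y' s) s) (dq : ∀ s ∈ U, HasDerivAt q (q' s) s)
    (cy : ContinuousOn y' U) (cq : ContinuousOn q' U)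
    (e : y t * q' t = q t * y' t - (y t ^ 2 + q t ^ 2)) :
    HasDerivAt (fun s => TT (y s) (q s))
      (y' t * exp (y t ^ 2 / 2) * hh (q t) - exp (y t ^ 2 / 2) * exp (q t ^ 2 / 2) + 1) t := by
  have c0 : ContinuousOn y U := fun s hs => (dy s hs).continuousAt.continuousWithinAt
  have c1 : ContinuousOn q U := fun s hs => (dq s hs).continuousAt.continuousWithinAt
  have l : ∀ {u : ℝ → ℝ}, ContinuousOn u U → ContinuousOn (fun p : ℝ × ℝ => u p.1) (U ×ˢ univ) :=
    fun hu => hu.comp continuousOn_fst fun _ hp => hp.1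
  have k := par (F := fun s w => y s * exp ((y s * w) ^ 2 / 2) * hh (q s * w))
    (F' := fun s w => (y' s * exp ((y s * w) ^ 2 / 2) +
      y s * (exp ((y s * w) ^ 2 / 2) * (y s * w) * (y' s * w))) * hh (q s * w) +
      y s * exp ((y s * w) ^ 2 / 2) * (exp ((q s * w) ^ 2 / 2) * (q' s * w))) hU ht
    (fun s => by fun_prop) (by
      have c : Continuous fun r : ((ℝ × ℝ) × ℝ × ℝ) × ℝ => (r.1.1.2 * exp ((r.1.1.1 * r.2) ^ 2 / 2) +
          r.1.1.1 * (exp ((r.1.1.1 * r.2) ^ 2 / 2) * (r.1.1.1 * r.2) * (r.1.1.2 * r.2))) *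
          hh (r.1.2.1 * r.2) + r.1.1.1 * exp ((r.1.1.1 * r.2) ^ 2 / 2) *
          (exp ((r.1.2.1 * r.2) ^ 2 / 2) * (r.1.2.2 * r.2)) := by fun_prop
      exact c.comp_continuousOn
        ((((l c0).prodMk (l cy)).prodMk ((l c1).prodMk (l cq))).prodMk continuousOn_snd)) fun s hs w => ((dy s hs).mul ((ex_d _).comp s ((dy s hs).mul_const w))).mul
        ((hh_d _).comp s ((dq s hs).mul_const w))
  refine k.congr_deriv ?_
  have d : ∀ w, HasDerivAt (fun w => y' t * w * exp ((y t * w) ^ 2 / 2) * hh (q t * w) -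
      exp ((y t * w) ^ 2 / 2) * exp ((q t * w) ^ 2 / 2)) _ w := fun w =>
    (((hasDerivAt_const_mul (y' t)).mul ((ex_d _).comp w (hasDerivAt_const_mul (y t)))).mul
      ((hh_d _).comp w (hasDerivAt_const_mul (q t)))).sub
      (((ex_d _).comp w (hasDerivAt_const_mul (y t))).mul
        ((ex_d _).comp w (hasDerivAt_const_mul (q t))))
  rw [intervalIntegral.integral_eq_sub_of_hasDerivAt (fun w _ => (d w).congr_deriv ?_)
    (Continuous.intervalIntegrable (by fun_prop) _ _)]
  · simp
  · simp only [comp_apply, Pi.mul_apply]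
    linear_combination (-w * exp ((y t * w) ^ 2 / 2) * exp ((q t * w) ^ 2 / 2)) * e

theorem end_c {f : ℝ → ℝ} {a t : ℝ} (hf : HasDerivAt f a t) (h0 : f t = 0) (hs : sin t = 0) :
    ContinuousAt (fun s => TT (f s) (f s * cos s / sin s)) t := by
  have hc : cos t ≠ 0 := fun hc => by simpa [hs, hc] using sin_sq_add_cos_sq t
  have l := ((hasDerivAt_iff_tendsto_slope.1 hf).mul
    (continuous_cos.continuousAt.tendsto.mono_left nhdsWithin_le_nhds)).div
    (hasDerivAt_iff_tendsto_slope.1 (hasDerivAt_sin t)) hc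
  have l2 : Tendsto (fun s => f s * cos s / sin s) (𝓝[≠] t) (𝓝 (a * cos t / cos t)) := by
    refine l.congr' (eventually_nhdsWithin_of_forall fun s hs' => ?_)
    have : s - t ≠ 0 := sub_ne_zero.2 hs'
    simp only [Pi.div_apply, slope_def_field, h0, hs, sub_zero]
    by_cases h : sin s = 0
    · simp [h]
    · field_simp
  have l3 := (TT_c.tendsto _).comp
    ((hf.continuousAt.tendsto.mono_left nhdsWithin_le_nhds).prodMk_nhds l2)
  rw [← continuousWithinAt_compl_self, ContinuousWithinAt]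
  simp only [h0, TT_zero] at l3 ⊢
  exact l3

theorem g1_zero {f f' : ℝ → ℝ} (hd : ∀ t, HasDerivAt f (f' t) t) (hc : Continuous f')
    (h0 : f 0 = 0) (h1 : f π = 0) : ∫ t in (0 : ℝ)..π, exp (f t ^ 2 / 2) * LL (f' t) ≤ π := by
  have cf : Continuous f := continuous_iff_continuousAt.2 fun t => (hd t).continuousAt
  have sp : ∀ t ∈ Ioo 0 π, sin t ≠ 0 := fun t ht => (sin_pos_of_pos_of_lt_pi ht.1 ht.2).ne'
  have d : ∀ t ∈ Ioo 0 π, HasDerivAt (fun s => s - TT (f s) (f s * cos s / sin s)) _ t :=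
    fun t ht => (hasDerivAt_id t).sub (TT_d isOpen_Ioo ht (fun s _ => hd s)
      (fun s hs => ((hd s).mul (hasDerivAt_cos s)).div (hasDerivAt_sin s) (sp s hs))
      hc.continuousOn (ContinuousOn.div (by fun_prop) (by fun_prop) fun s hs =>
        pow_ne_zero 2 (sp s hs)) (by
          have := sp t ht
          simp only [Pi.mul_apply]
          field_simp
          ring))
  have k := intervalIntegral.integral_le_sub_of_hasDeriv_right_of_le pi_pos.le
    (g := fun s => s - TT (f s) (f s * cos s / sin s))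
    (φ := fun t => exp (f t ^ 2 / 2) * LL (f' t)) (fun t ht => by
      rcases ht.1.eq_or_lt with h | h
      · rw [← h]
        exact (continuousAt_id.sub (end_c (hd 0) h0 sin_zero)).continuousWithinAt
      rcases ht.2.eq_or_lt with h' | h'
      · rw [h']
        exact (continuousAt_id.sub (end_c (hd π) h1 sin_pi)).continuousWithinAt
      exact (d t ⟨h, h'⟩).continuousAt.continuousWithinAt)
    (fun t ht => (d t ht).hasDerivWithinAt) (Continuous.integrableOn_Icc (by fun_prop))
    fun t _ => by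
      have := mul_le_mul_of_nonneg_left (LL_le (f t * cos t / sin t) (f' t))
        (exp_pos (f t ^ 2 / 2)).le
      linarith
  simpa only [h0, h1, TT_zero, sub_zero] using k

theorem hh_neg (q : ℝ) : hh (-q) = -hh q := by
  have := intervalIntegral.integral_comp_neg (a := q) (b := 0) fun m : ℝ => exp (m ^ 2 / 2)
  simp only [neg_zero, even_two.neg_pow] at this
  rw [hh, hh, ← intervalIntegral.integral_symm, this]

theorem LL_neg (q : ℝ) : LL (-q) = LL q := by simp [LL, hh_neg]

/-- The inequality on one circle. -/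
theorem g1 {f f' : ℝ → ℝ} (hd : ∀ t, HasDerivAt f (f' t) t) (hc : Continuous f')
    (h0 : ∀ t, f (t + π) = -f t) (h1 : ∀ t, f' (t + π) = -f' t) :
    ∫ t in (0 : ℝ)..π, exp (f t ^ 2 / 2) * LL (f' t) ≤ π := by
  have cf : Continuous f := continuous_iff_continuousAt.2 fun t => (hd t).continuousAt
  obtain ⟨c, hc0⟩ : ∃ c, f c = 0 := by
    have := fun a b => intermediate_value_univ₂ (a := a) (b := b) cf (g := fun _ => 0)
      continuous_const
    rcases le_total (f 0) 0 with h | h
    · exact this 0 (0 + π) h (by rw [h0]; linarith)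
    · exact this (0 + π) 0 (by rw [h0]; linarith) h
  have p : Periodic (fun t => exp (f t ^ 2 / 2) * LL (f' t)) π := fun t => by
    simp only [h0, h1, LL_neg, even_two.neg_pow]
  have k := g1_zero (f := fun t => f (t + c)) (f' := fun t => f' (t + c))
    (fun t => (hd (t + c)).comp_add_const t c) (by fun_prop) (by rw [zero_add, hc0])
    (by rw [add_comm, h0, hc0, neg_zero])
  rw [intervalIntegral.integral_comp_add_right (fun t => exp (f t ^ 2 / 2) * LL (f' t)), zero_add,
    add_comm, p.intervalIntegral_add_eq c 0, zero_add] at k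
  exact k

end

end Pool.Agent.MP_3ee8cb_gt.DNW
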