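import Pool.Agent.MP_3ee8cb_gt.DNW.G1
import Pool.Agent.MP_3ee8cb_gt.DNG.Defs

/-! The circle inequality in the form of the block statement. -/

namespace Pool.Agent.MP_3ee8cb_gt.DNW

open Real

theorem sG1 : DNG.SG1 := fun f f' hd hc h0 => g1 hd hc h0 fun t => by
  have h1 := (hd (t + π)).comp_add_const t π
  simp only [h0] at h1
  exact h1.unique (hd t).neg

end Pool.Agent.MP_3ee8cb_gt.DNW
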